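import Mathlib
import Pool.Agent.Helper34.GD.Final
import Pool.Agent.Helper10.DegenThm

/-!
# The standard conjecture D for fibres of families over a smaller base field
-/

universe u v w u' w' t

open CategoryTheory Finset

namespace Pool.Agent.Helper11.GD

open Pool.Agent.Helper10 hiding IsAlgAut parityPart
open SmProjVar Pool.Agent.Helper10.GIT
open Pool.Agent.Helper11 Pool.Agent.Helper11.BD
open Pool.Agent.Helper11.Obs (extProd wordClass prodVar prodFst prodProj IsNumTrivial power
  NumTrivialOrthogonal)
open Pool.Agent.Helper34.GD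

section

variable {k₀ : Type u} [Field k₀] {k : Type u'} [Field k] {K : Type v} [Field K]
  (W₀ : CohomologyData.{u, v, w} k₀ K) (W : CohomologyData.{u', v, w'} k K)

/-- The products of the varieties `V c` over `k` are (geometric generic) fibres of varieties `U`
over `k₀`, and the group `Γ` acts like the Galois group of the function field: the map `r` from
`H(U)` to the cohomology of the fibre maps classes of cycles to combinations of classes of cycles;
`y` is the push-forward of `z`, for combinations `z` of classes of cycles on the fibre which are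
fixed by `Γ`; and `z = 0` if it is orthogonal to all classes `r x`. (Example: `ℓ`-adic cohomology;
`y` is the class on `U` of the cycle `z` in a closed fibre; the last property is the semisimplicity
of the monodromy together with the theorem on the invariant cycles, due to Deligne.) -/
structure HasModels {P : ℕ} (F : Subfield K) (V : Fin P → SmProjVar k) {Γ : Type t} [Group Γ]
    (χ : Γ →* Kˣ) (ψ : Γ → ∀ c, W.H (V c) → W.H (V c))
    (U : ∀ {b : ℕ}, (Fin b → Fin P) → SmProjVar k₀)
    (r : ∀ {b : ℕ} (c : Fin b → Fin P), W₀.H (U c) → W.H (prodVar (pt k) fun i => V (c i))) :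
    Prop where
  action : IsGaloisAction W V χ ψ
  restrict : ∀ (b i : ℕ) (c : Fin b → Fin P) (d : (U c).Z i),
    r c (W₀.cy (U c) i d) ∈ cycleSpan W F (prodVar (pt k) fun i => V (c i))
  extend : ∀ (b j : ℕ) (c : Fin b → Fin P),
    ∀ z ∈ codSpan W F (prodVar (pt k) fun i => V (c i)) j,
      (∀ g, IsConj W (ψ g) (χ g : K) c j z z) → ∃ y ∈ cycleSpan W₀ F (U c), ∀ x,
        W₀.pairing (U c) y x = W.pairing (prodVar (pt k) fun i => V (c i)) z (r c x)
  detect : ∀ (b j : ℕ) (c : Fin b → Fin P),
    ∀ z ∈ codSpan W F (prodVar (pt k) fun i => V (c i)) j,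
      (∀ g, IsConj W (ψ g) (χ g : K) c j z z) →
        (∀ x, W.pairing (prodVar (pt k) fun i => V (c i)) z (r c x) = 0) → z = 0

end

section

variable {k₀ : Type u} [Field k₀] {k : Type u'} [Field k] {K : Type v} [Field K] [CharZero K]
  {W₀ : WeilCohomology.{u, v, w} k₀ K} {W : WeilCohomology.{u', v, w'} k K} {F : Subfield K}
  {P : ℕ} {V : Fin P → SmProjVar k} {Γ : Type t} [Group Γ] {χ : Γ →* Kˣ}
  {ψ : Γ → ∀ c, W.H (V c) → W.H (V c)} {U : ∀ {b : ℕ}, (Fin b → Fin P) → SmProjVar k₀}
  {r : ∀ {b : ℕ} (c : Fin b → Fin P), W₀.H (U c) → W.H (prodVar (pt k) fun i => V (c i))}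

/-- invariant numerically trivial combinations of cycles vanish -/
lemma eq_zero_of_fixed (hX : HasModels W₀.toCohomologyData W.toCohomologyData F V χ ψ U r)
    (hU : ∀ (b : ℕ) (c : Fin b → Fin P), W₀.StandardD (U c)) {b j : ℕ} {c : Fin b → Fin P}
    {z : W.H (prodVar (pt k) fun i => V (c i))}
    (hz : z ∈ codSpan W.toCohomologyData F (prodVar (pt k) fun i => V (c i)) j)
    (hfix : ∀ g, IsConj W.toCohomologyData (ψ g) (χ g : K) c j z z)
    (hnt : IsNumTrivial W.toCohomologyData _ z) : z = 0 := by
  obtain ⟨y, hy, hyx⟩ := hX.extend b j c z hz hfix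
  refine hX.detect b j c z hz hfix fun x => ?_
  rw [← hyx]
  have hy0 : y = 0 := by
    refine Degen.eq_zero_of_standardD (hU b c) (cycleSpan_le W₀ _ hy) fun a ha => ?_
    unfold CohomologyData.algClasses at ha
    induction ha using Submodule.span_induction with
    | mem a ha =>
      obtain ⟨i, d, rfl⟩ := ha
      refine (hyx _).trans ?_
      exact hnt.2 _ (cycleSpan_le W _ (hX.restrict b i c d))
    | zero => rw [mul_zero, map_zero]
    | add a b _ _ ha hb => rw [mul_add, map_add, ha, hb, add_zero]
    | smul c a _ ha => rw [mul_smul_comm, map_smul, ha, smul_zero]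
  rw [hy0]
  change W₀.trL _ (0 * x) = 0
  rw [zero_mul, map_zero]

/-- numerically trivial combinations of cycles of codimension `j` over `k` are orthogonal to
words -/
theorem trL_eq_zero (hX : HasModels W₀.toCohomologyData W.toCohomologyData F V χ ψ U r)
    (hU : ∀ (b : ℕ) (c : Fin b → Fin P), W₀.StandardD (U c)) {b j : ℕ} {c : Fin b → Fin P}
    {z : W.H (prodVar (pt k) fun i => V (c i))}
    (hz : z ∈ codSpan W.toCohomologyData F (prodVar (pt k) fun i => V (c i)) j)
    (hnt : IsNumTrivial W.toCohomologyData _ z) (v : ∀ i, W.H (V (c i))) :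
    W.trL (prodVar (pt k) fun i => V (c i)) (z *
      (extProd W.toCohomologyData (A := pt k) 1 v :
        W.H (prodVar (pt k) fun i => V (c i)))) = 0 := by
  obtain ⟨O, hzO, hO⟩ := exists_psum hX.action hz hnt
  refine eq_zero_of_psum O (fun y => W.trL (prodVar (pt k) fun i => V (c i)) (y *
    (extProd W.toCohomologyData (A := pt k) 1 v :
      W.H (prodVar (pt k) fun i => V (c i))))) (fun r => ?_) z hzO
  obtain ⟨a, y, ha, hy, hynt, hfix, hval⟩ := hO (r + 1) (Nat.succ_pos r)
  have h1 := hval fun _ => v
  simp only [prod_const, card_univ, Fintype.card_fin] at h1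
  have h2 : y = 0 := eq_zero_of_fixed hX hU (c := fun q : Fin ((r + 1) * b) => c q.modNat) hy
    hfix hynt
  rw [h2, zero_mul, map_zero] at h1
  exact (mul_eq_zero.mp h1.symm).resolve_left ha

/-- **D for fibres.** -/
theorem numTrivialOrthogonal_of_models
    (hX : HasModels W₀.toCohomologyData W.toCohomologyData F V χ ψ U r)
    (hU : ∀ (b : ℕ) (c : Fin b → Fin P), W₀.StandardD (U c)) (n : ℕ) :
    NumTrivialOrthogonal W.toCohomologyData (pt k) V (fun _ => ⊤) n := by
  rintro T z y hz ⟨m, b, p, x, c, f, t, v, -, -, -, rfl⟩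
  obtain ⟨M, α, y, hy, rfl⟩ := exists_rational_parts W F hz
  change W.trL T ((∑ s, α s • y s) * _) = 0
  rw [sum_mul, map_sum]
  refine sum_eq_zero fun s _ => ?_
  rw [smul_mul_assoc, map_smul]
  obtain ⟨Z, a, hZ, hZF, hZv⟩ := exists_push_word W F (V := fun i => V (c i)) p x f (hy s).2
    (hy s).1
  obtain ⟨Y, hY, hZY, hYnt⟩ := exists_components W hZF
  have h4 : W.trL (prodVar (pt k) fun i => V (c i)) (Z *
      (extProd W.toCohomologyData (A := pt k) 1 v : W.H (prodVar (pt k) fun i => V (c i)))) = 0 := by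
    rw [hZY, sum_mul, map_sum]
    exact sum_eq_zero fun j _ => trL_eq_zero hX hU (hY j) (hYnt hZ j) v
  have h5 := hZv v
  rw [h4, mul_zero] at h5
  exact (congrArg (α s • ·) h5).trans (smul_zero _)

/-- **D for fibres.** -/
theorem standardD_of_models
    (hX : HasModels W₀.toCohomologyData W.toCohomologyData F V χ ψ U r)
    (hU : ∀ (b : ℕ) (c : Fin b → Fin P), W₀.StandardD (U c)) {Y : SmProjVar k}
    (hY : Ro.IsSpanned W.toCohomologyData V (fun _ => ⊤) Y) : W.StandardD Y := by
  obtain ⟨n, hn⟩ := Ro.exists_spannedBy W hY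
  exact Can.standardD_of_numTrivialOrthogonal W (numTrivialOrthogonal_of_models hX hU n) hn

end

end Pool.Agent.Helper11.GD
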